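import Pool.Agent.R73.RichData

/-!
# Rich words: every 7 by 7 block can be prolonged

Helper file for `MP_0bf243_co`: the finite combinatorial part.
-/

set_option maxRecDepth 100000

namespace Pool.R73.Rich

theorem mem_of_testBit_foldl (l : List (ℕ × ℕ × ℕ)) : ∀ (m c : ℕ),
    (l.foldl (fun m c => m ||| (1 <<< c.1)) m).testBit c = true →
    m.testBit c = true ∨ ∃ e ∈ l, e.1 = c := by
  induction l with
  | nil => intro m c h; exact Or.inl h
  | cons e l ih =>
    intro m c h
    rcases ih _ _ h with h1 | ⟨e', h1, h2⟩
    · rw [Nat.testBit_or, Bool.or_eq_true] at h1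
      rcases h1 with h1 | h1
      · exact Or.inl h1
      · right
        rw [Nat.one_shiftLeft, Nat.testBit_two_pow] at h1
        exact ⟨e, List.mem_cons_self, by simpa using h1⟩
    · exact Or.inr ⟨e', List.mem_cons_of_mem _ h1, h2⟩

theorem good_of_W {c : ℕ} (h : W.testBit c = true) : Good c.testBit := by
  rw [W_eq] at h
  rcases mem_of_testBit_foldl used 0 c h with h1 | ⟨e, h1, h2⟩
  · simp at h1
  · have h3 := List.all_eq_true.1 used_chk e h1
    obtain ⟨c', k1, k2⟩ := e
    simp only at h2
    subst h2
    exact good_of_chk h3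

/-- the code of the word of length 13 with parts `p`, `w`, `q` of lengths 3, 7, 3 -/
def code13 (p w q : ℕ) : ℕ := p + 8 * w + 1024 * q

theorem testBit_code13 {p w : ℕ} (q : ℕ) (hp : p < 8) (hw : w < 128) (k : ℕ) :
    (code13 p w q).testBit k =
      if k < 3 then p.testBit k else if k < 10 then w.testBit (k - 3) else q.testBit (k - 10) := by
  have e : code13 p w q = 2 ^ 3 * (2 ^ 7 * q + w) + p := by unfold code13; ring
  rw [e, Nat.testBit_two_pow_mul_add _ (by simpa using hp)]
  split_ifs with h1 h2
  · rfl
  · rw [Nat.testBit_two_pow_mul_add _ (by simpa using hw), if_pos (by omega)]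
  · rw [Nat.testBit_two_pow_mul_add _ (by simpa using hw), if_neg (by omega)]
    congr 1

/-- `7` (three letters `1`) or `0` (three letters `0`) -/
def cst (a : Bool) : ℕ := if a then 7 else 0

theorem cst_lt (a : Bool) : cst a < 8 := by cases a <;> decide

theorem testBit_cst (a : Bool) {k : ℕ} (hk : k < 3) : (cst a).testBit k = a := by
  cases a <;> interval_cases k <;> decide

/-- the word `a^∞ w (¬a)^∞` is in the list -/
def allow (a : Bool) (w : ℕ) : Bool := W.testBit (code13 (cst a) w (cst (!a)))

theorem allow_or : ∀ w < 128, (allow false w || allow true w) = true := by decide +kernel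

theorem allow_compl : ∀ w < 128, (allow true (127 - w) = allow false w) := by decide +kernel

theorem testBit_compl : ∀ w < 128, ∀ j < 7, (127 - w).testBit j = !w.testBit j := by
  decide +kernel

theorem allow_compl' {w : ℕ} (hw : w < 128) (a : Bool) : allow (!a) (127 - w) = allow a w := by
  cases a
  · exact allow_compl w hw
  · have := allow_compl (127 - w) (by omega)
    rw [show 127 - (127 - w) = w by omega] at this
    exact this.symm

/-- the preferred left tail of `w` -/
def phi (w : ℕ) : Bool := !(allow false w)

theorem allow_phi {w : ℕ} (hw : w < 128) : allow (phi w) w = true := by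
  have := allow_or w hw
  unfold phi
  cases h : allow false w
  · rw [h] at this
    simpa using this
  · simpa using h

/-- the code of a word of length 7 -/
def enc (f : ℕ → Bool) : ℕ := Nat.ofBits (fun i : Fin 7 => f i)

theorem enc_lt (f : ℕ → Bool) : enc f < 128 := Nat.ofBits_lt_two_pow _

theorem testBit_enc (f : ℕ → Bool) {i : ℕ} (h : i < 7) : (enc f).testBit i = f i :=
  Nat.testBit_ofBits_lt _ i h

/-- replace the bit number `i < 7` -/
def setb (x i : ℕ) (b : Bool) : ℕ :=
  if i < 7 then (if x.testBit i = b then x else x ^^^ (2 ^ i)) else x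

theorem testBit_setb {x i : ℕ} (b : Bool) {j : ℕ} (hj : j < 7) :
    (setb x i b).testBit j = if j = i then b else x.testBit j := by
  unfold setb
  split_ifs with h1 h2 h3 h3 h3
  · rw [h3, h2]
  · rfl
  · rw [h3, Nat.testBit_xor, Nat.testBit_two_pow_self]
    revert h2
    cases x.testBit i <;> cases b <;> simp
  · rw [Nat.testBit_xor, Nat.testBit_two_pow_of_ne (by omega)]
    simp
  · omega
  · rfl

theorem setb_lt {x : ℕ} (hx : x < 128) (i : ℕ) (b : Bool) : setb x i b < 128 := by
  unfold setb
  split_ifs with h1 h2
  · exact hx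
  · have : 2 ^ i < 2 ^ 7 := Nat.pow_lt_pow_right (by norm_num) h1
    exact Nat.xor_lt_two_pow (n := 7) hx this
  · exact hx

/-- row `r` of a 3 by 3 corner -/
def row3 (T r : ℕ) : ℕ := (T >>> (3 * r)) % 8

/-- column `c` of a 3 by 3 corner -/
def col3 (T c : ℕ) : ℕ :=
  (T.testBit c).toNat + 2 * (T.testBit (c + 3)).toNat + 4 * (T.testBit (c + 6)).toNat

theorem row3_lt (T r : ℕ) : row3 T r < 8 := Nat.mod_lt _ (by norm_num)

theorem col3_lt (T c : ℕ) : col3 T c < 8 := by
  unfold col3
  have h1 := Bool.toNat_le (T.testBit c)
  have h2 := Bool.toNat_le (T.testBit (c + 3))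
  have h3 := Bool.toNat_le (T.testBit (c + 6))
  omega

theorem testBit_row3 (T r : ℕ) {c : ℕ} (hc : c < 3) : (row3 T r).testBit c = T.testBit (3 * r + c) := by
  unfold row3
  rw [show 8 = 2 ^ 3 by norm_num, Nat.testBit_mod_two_pow, Nat.testBit_shiftRight]
  simp [hc]

theorem testBit_col3 (T c : ℕ) {r : ℕ} (hr : r < 3) : (col3 T c).testBit r = T.testBit (3 * r + c) := by
  unfold col3
  interval_cases r
  · rw [show 3 * 0 + c = c by omega]
    cases T.testBit c <;> cases T.testBit (c + 3) <;> cases T.testBit (c + 6) <;> decide
  · rw [show 3 * 1 + c = c + 3 by omega]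
    cases T.testBit c <;> cases T.testBit (c + 3) <;> cases T.testBit (c + 6) <;> decide
  · rw [show 3 * 2 + c = c + 6 by omega]
    cases T.testBit c <;> cases T.testBit (c + 3) <;> cases T.testBit (c + 6) <;> decide

/-- the check of a modification -/
def certOK (x u i p q TL TR BL BR : ℕ) : Bool :=
  (List.range 3).all fun r =>
    W.testBit (code13 (row3 TL r) u (row3 TR r)) &&
    W.testBit (code13 (row3 BL r) (127 - u) (row3 BR r)) &&
    W.testBit (code13 (col3 TL r) (setb x i (p.testBit r)) (col3 BL r)) &&
    W.testBit (code13 (col3 TR r) (setb (127 - x) i (q.testBit r)) (col3 BR r))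

/-- the prolonged block -/
def G (M : ℕ → ℕ → Bool) (x u i p q TL TR BL BR : ℕ) (r c : ℕ) : Bool :=
  if r < 3 then
    (if c < 3 then TL.testBit (3 * r + c) else
      if c < 10 then u.testBit (c - 3) else TR.testBit (3 * r + (c - 10)))
  else if r < 10 then
    (if c < 3 then (if r - 3 = i then p.testBit c else x.testBit (r - 3)) else
      if c < 10 then M (r - 3) (c - 3) else
        (if r - 3 = i then q.testBit (c - 10) else !x.testBit (r - 3)))
  else
    (if c < 3 then BL.testBit (3 * (r - 10) + c) else
      if c < 10 then !u.testBit (c - 3) else BR.testBit (3 * (r - 10) + (c - 10)))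

theorem build (M : ℕ → ℕ → Bool) {x u i p q TL TR BL BR : ℕ} (hx : x < 128) (hu : u < 128)
    (hp : p < 8) (hc : certOK x u i p q TL TR BL BR = true)
    (hrow : ∀ r < 7, r ≠ i → allow (x.testBit r) (enc (M r)) = true)
    (hrowi : i < 7 → W.testBit (code13 p (enc (M i)) q) = true)
    (hcol : ∀ j < 7, allow (u.testBit j) (enc fun r => M r j) = true) :
    (∀ r < 13, Good (G M x u i p q TL TR BL BR r)) ∧
    (∀ c < 13, Good fun r => G M x u i p q TL TR BL BR r c) := by
  unfold certOK at hc
  rw [List.all_eq_true] at hc
  have hc' : ∀ r < 3, W.testBit (code13 (row3 TL r) u (row3 TR r)) = true ∧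
    W.testBit (code13 (row3 BL r) (127 - u) (row3 BR r)) = true ∧
    W.testBit (code13 (col3 TL r) (setb x i (p.testBit r)) (col3 BL r)) = true ∧
    W.testBit (code13 (col3 TR r) (setb (127 - x) i (q.testBit r)) (col3 BR r)) = true := by
    intro r hr
    have := hc r (List.mem_range.2 hr)
    simp only [Bool.and_eq_true] at this
    exact ⟨this.1.1.1, this.1.1.2, this.1.2, this.2⟩
  constructor
  · intro r hr
    rcases Nat.lt_or_ge r 3 with h1 | h1
    · refine (good_of_W (hc' r h1).1).congr ?_
      intro c hc
      rw [testBit_code13 _ (row3_lt _ _) hu]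
      unfold G
      rw [if_pos h1]
      split_ifs with h2 h3
      · rw [testBit_row3 _ _ h2]
      · rfl
      · rw [testBit_row3 _ _ (by omega)]
    · rcases Nat.lt_or_ge r 10 with h2 | h2
      · by_cases hi : r - 3 = i
        · refine (good_of_W (hrowi (by omega))).congr ?_
          intro c hc
          rw [testBit_code13 _ hp (enc_lt _)]
          unfold G
          rw [if_neg (by omega), if_pos h2]
          split_ifs with h3 h4
          · rfl
          · rw [testBit_enc _ (by omega), hi]
          · rfl
        · refine (good_of_W (hrow (r - 3) (by omega) hi)).congr ?_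
          intro c hc
          rw [testBit_code13 _ (cst_lt _) (enc_lt _)]
          unfold G
          rw [if_neg (by omega), if_pos h2, if_neg hi, if_neg hi]
          split_ifs with h3 h4
          · rw [testBit_cst _ h3]
          · rw [testBit_enc _ (by omega)]
          · rw [testBit_cst _ (by omega)]
      · refine (good_of_W (hc' (r - 10) (by omega)).2.1).congr ?_
        intro c hc
        rw [testBit_code13 _ (row3_lt _ _) (by omega)]
        unfold G
        rw [if_neg (by omega), if_neg (by omega)]
        split_ifs with h3 h4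
        · rw [testBit_row3 _ _ h3]
        · rw [testBit_compl u hu _ (by omega)]
        · rw [testBit_row3 _ _ (by omega)]
  · intro c hcc
    rcases Nat.lt_or_ge c 3 with h1 | h1
    · refine (good_of_W (hc' c h1).2.2.1).congr ?_
      intro r hr
      rw [testBit_code13 _ (col3_lt _ _) (setb_lt hx _ _)]
      unfold G
      rw [if_pos h1, if_pos h1, if_pos h1]
      split_ifs with h2 h3 h4
      · rw [testBit_col3 _ _ h2]
      · rw [testBit_setb _ (by omega), if_pos h4]
      · rw [testBit_setb _ (by omega), if_neg h4]
      · rw [testBit_col3 _ _ (by omega)]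
    · rcases Nat.lt_or_ge c 10 with h2 | h2
      · refine (good_of_W (hcol (c - 3) (by omega))).congr ?_
        intro r hr
        rw [testBit_code13 _ (cst_lt _) (enc_lt _)]
        unfold G
        have hc3 : ¬ c < 3 := by omega
        simp only [hc3, h2, ↓reduceIte]
        split_ifs with h3 h4
        · rw [testBit_cst _ h3]
        · rw [testBit_enc _ (by omega)]
        · rw [testBit_cst _ (by omega)]
      · refine (good_of_W (hc' (c - 10) (by omega)).2.2.2).congr ?_
        intro r hr
        rw [testBit_code13 _ (col3_lt _ _) (setb_lt (by omega) _ _)]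
        unfold G
        have hc3 : ¬ c < 3 := by omega
        have hc10 : ¬ c < 10 := by omega
        simp only [hc3, hc10, ↓reduceIte]
        split_ifs with h3 h4 h5
        · rw [testBit_col3 _ _ h3]
        · rw [testBit_setb _ (by omega), if_pos h5]
        · rw [testBit_setb _ (by omega), if_neg h5, testBit_compl x hx _ (by omega)]
        · rw [testBit_col3 _ _ (by omega)]

/-- `D` prolongs the 7 by 7 block `M` placed at the positions `3, …, 9`, and all its rows and
columns may be prolonged by constants. -/
def Prolongs (M D : ℕ → ℕ → Bool) : Prop :=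
  (∀ i < 7, ∀ j < 7, D (i + 3) (j + 3) = M i j) ∧
  (∀ r < 13, Good (D r)) ∧ (∀ c < 13, Good fun r => D r c)

theorem G_inner (M : ℕ → ℕ → Bool) (x u i p q TL TR BL BR : ℕ) :
    ∀ a < 7, ∀ b < 7, G M x u i p q TL TR BL BR (a + 3) (b + 3) = M a b := by
  intro a ha b hb
  unfold G
  rw [if_neg (by omega), if_pos (by omega), if_neg (by omega), if_pos (by omega)]
  simp

/-- a corner with constant letter -/
def cc (a : Bool) : ℕ := if a then 511 else 0

theorem row3_cc (a : Bool) : ∀ r < 3, row3 (cc a) r = cst a := by
  cases a <;> decide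

theorem col3_cc (a : Bool) : ∀ r < 3, col3 (cc a) r = cst a := by
  cases a <;> decide

theorem certOK_const {x u : ℕ} (hx : x < 128) (hu : u < 128) (a : Bool)
    (h1 : allow a x = true) (h2 : allow a u = true) :
    certOK x u 7 0 0 (cc a) (cc (!a)) (cc (!a)) (cc a) = true := by
  unfold certOK
  rw [List.all_eq_true]
  intro r hr
  have hr3 : r < 3 := List.mem_range.1 hr
  rw [row3_cc _ r hr3, row3_cc _ r hr3, col3_cc _ r hr3, col3_cc _ r hr3]
  have e : ∀ y b, setb y 7 b = y := fun y b => by unfold setb; simp
  rw [e, e]
  have h3 := allow_compl' hx a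
  have h4 := allow_compl' hu a
  rw [h1] at h3
  rw [h2] at h4
  unfold allow at h1 h2 h3 h4
  rw [Bool.not_not] at h3 h4
  rw [h1, h2, h3, h4]
  rfl

/-! ### The table -/

/-- left tail of a type -/
def tp (t : ℕ) : ℕ := (typ.getD t (0, 0, 0)).1
/-- right tail of a type -/
def tq (t : ℕ) : ℕ := (typ.getD t (0, 0, 0)).2.1
/-- mask of a type -/
def tm (t : ℕ) : ℕ := (typ.getD t (0, 0, 0)).2.2

theorem typ_ok : ∀ t < 19, tp t < 8 ∧ ∀ w < 128, (tm t).testBit w = true →
    W.testBit (code13 (tp t) w (tq t)) = true := by decide +kernel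

/-- mask of the words with `phi w = b` -/
def clsM (b : Bool) : ℕ := if b then (2 ^ 128 - 1) - cls0 else cls0

/-- mask of the words whose letter number `j` is `b` -/
def letM (j : ℕ) (b : Bool) : ℕ := if b then let1.getD j 0 else (2 ^ 128 - 1) - let1.getD j 0

theorem clsM_spec : ∀ w < 128, (clsM (phi w)).testBit w = true := by decide +kernel

theorem letM_spec : ∀ j < 7, ∀ w < 128, (letM j (w.testBit j)).testBit w = true := by
  decide +kernel

/-- position field of a modification -/
def fi (e : ℕ) : ℕ := e % 8
/-- type field of a modification -/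
def ft (e : ℕ) : ℕ := e / 8 % 32
/-- corner fields of a modification -/
def fTL (e : ℕ) : ℕ := e / 256 % 512
/-- corner fields of a modification -/
def fTR (e : ℕ) : ℕ := e / 131072 % 512
/-- corner fields of a modification -/
def fBL (e : ℕ) : ℕ := e / 67108864 % 512
/-- corner fields of a modification -/
def fBR (e : ℕ) : ℕ := e / 34359738368 % 512

/-- check of a modification -/
def certE (x u e : ℕ) : Bool :=
  decide (fi e < 7) && decide (ft e < 19) &&
  certOK x u (fi e) (tp (ft e)) (tq (ft e)) (fTL e) (fTR e) (fBL e) (fBR e)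

/-- the words covered by the modifications of row `i` -/
def goodMask (i : ℕ) : List ℕ → ℕ
  | [] => 0
  | e :: l => if fi e = i then tm (ft e) ||| goodMask i l else goodMask i l

theorem goodMask_spec (i w : ℕ) : ∀ l : List ℕ, (goodMask i l).testBit w = true →
    ∃ e ∈ l, fi e = i ∧ (tm (ft e)).testBit w = true
  | [], h => by simp [goodMask] at h
  | e :: l, h => by
    rw [goodMask] at h
    split_ifs at h with h1
    · rw [Nat.testBit_or, Bool.or_eq_true] at h
      rcases h with h | h
      · exact ⟨e, List.mem_cons_self, h1, h⟩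
      · obtain ⟨e', h2, h3⟩ := goodMask_spec i w l h
        exact ⟨e', List.mem_cons_of_mem _ h2, h3⟩
    · obtain ⟨e', h2, h3⟩ := goodMask_spec i w l h
      exact ⟨e', List.mem_cons_of_mem _ h2, h3⟩

/-- all words of the class of `x` at `i` with letter `b` at `j` are covered -/
def incl (x i j : ℕ) (b : Bool) (l : List ℕ) : Bool :=
  (clsM (x.testBit i) &&& letM j b) &&& goodMask i l == clsM (x.testBit i) &&& letM j b

theorem incl_spec {x i j w : ℕ} {l : List ℕ} (hw : w < 128) (hj : j < 7)
    (h : incl x i j (w.testBit j) l = true) (h1 : phi w = x.testBit i) :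
    (goodMask i l).testBit w = true := by
  unfold incl at h
  rw [beq_iff_eq] at h
  have h2 := congrArg (fun n => n.testBit w) h
  simp only [Nat.testBit_and] at h2
  rw [← h1, clsM_spec w hw, letM_spec j hj w hw] at h2
  simpa using h2

/-- check of an entry of the table -/
def checkE (e : ℕ × List ℕ) : Bool :=
  let x := e.1 % 128
  let u := e.1 / 128 % 128
  let j := e.1 / 16384 % 8
  let G0 := e.1 / 131072 % 128
  let G1 := e.1 / 16777216 % 128
  decide (j < 7) && e.2.all (certE x u) &&
  ((List.range 7).all fun i => (!(G0.testBit i) || incl x i j false e.2) &&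
    (!(G1.testBit i) || incl x i j true e.2)) &&
  ((List.range 128).all fun c => (phi c != u.testBit j) ||
    (List.range 7).any fun i => (if c.testBit i then G1 else G0).testBit i)

theorem table_ok : table.all checkE = true := by decide +kernel

/-- the words with only the tails `0...0 w 1...1` -/
def listA : List ℕ := (List.range 128).filter fun w => !(allow true w)
/-- the words with only the tails `1...1 w 0...0` -/
def listB : List ℕ := (List.range 128).filter fun w => !(allow false w)

theorem table_complete : ∀ x ∈ listA, ∀ u ∈ listB, ∃ e ∈ table,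
    e.1 % 128 = x ∧ e.1 / 128 % 128 = u := by decide +kernel

end Pool.R73.Rich
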