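import Mathlib

/-!
# Rich words: basic theory and two-sided constant extensions

Helper file for `MP_0bf243_co`.
-/

namespace Pool.R73.Rich

/-- The set of palindromic factors of a finite binary word (the empty word included). -/
def palFactors (w : List Bool) : Set (List Bool) := {u | u <:+: w ∧ u.reverse = u}

/-- A finite word `w` is rich if it has exactly `|w| + 1` distinct palindromic factors,
the empty word included. -/
def IsRich (w : List Bool) : Prop := (palFactors w).ncard = w.length + 1

theorem palFactors_finite (w : List Bool) : (palFactors w).Finite := by
  apply Set.Finite.subset (List.finite_toSet w.sublists)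
  intro u hu
  simp only [Set.mem_ofPred_eq, List.mem_sublists]
  exact hu.1.sublist

theorem palFactors_mono {w w' : List Bool} (h : w <:+: w') : palFactors w ⊆ palFactors w' :=
  fun _ hu => ⟨hu.1.trans h, hu.2⟩

theorem palFactors_reverse (w : List Bool) : palFactors w.reverse = palFactors w := by
  ext u
  constructor
  · rintro ⟨h1, h2⟩
    refine ⟨?_, h2⟩
    have := List.reverse_infix.2 h1
    rw [List.reverse_reverse, h2] at this
    exact this
  · rintro ⟨h1, h2⟩
    refine ⟨?_, h2⟩
    have := List.reverse_infix.2 h1
    rw [h2] at this
    exact this

theorem isRich_reverse {w : List Bool} : IsRich w.reverse ↔ IsRich w := by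
  unfold IsRich
  rw [palFactors_reverse, List.length_reverse]

/-- A new palindromic factor of `a :: w` is a prefix, and it is unique. -/
theorem diff_ncard_le (a : Bool) (w : List Bool) :
    (palFactors (a :: w) \ palFactors w).ncard ≤ 1 := by
  have hfin : (palFactors (a :: w) \ palFactors w).Finite :=
    (palFactors_finite _).subset Set.sdiff_subset
  rw [Set.ncard_le_one hfin]
  have key : ∀ u v : List Bool, u ∈ palFactors (a :: w) \ palFactors w →
      v ∈ palFactors (a :: w) \ palFactors w → u.length ≤ v.length → u = v := by
    intro u v hu hv hle
    have pre : ∀ z : List Bool, z ∈ palFactors (a :: w) \ palFactors w → z <+: a :: w := by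
      intro z hz
      rcases List.infix_cons_iff.1 hz.1.1 with h | h
      · exact h
      · exact absurd ⟨h, hz.1.2⟩ hz.2
    have huv : u <+: v := List.prefix_of_prefix_length_le (pre u hu) (pre v hv) hle
    by_contra hne
    -- u is a suffix of v
    have hsuf : u <:+ v := by
      have := List.reverse_suffix.2 huv
      rwa [hu.1.2, hv.1.2] at this
    have hlt : u.length < v.length := by
      rcases Nat.lt_or_ge u.length v.length with h | h
      · exact h
      · exact absurd (huv.eq_of_length (le_antisymm hle h)) hne
    rcases v with _ | ⟨c, t⟩
    · simp at hlt
    · have h1 : u <:+ t := by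
        rcases List.suffix_cons_iff.1 hsuf with h | h
        · rw [h] at hlt
          simp at hlt
        · exact h
      have h2 : t <+: w := by
        have := pre _ hv
        rw [List.cons_prefix_cons] at this
        exact this.2
      exact hu.2 ⟨h1.isInfix.trans h2.isInfix, hu.1.2⟩
  intro u hu v hv
  rcases le_total u.length v.length with h | h
  · exact key u v hu hv h
  · exact (key v u hv hu h).symm

theorem ncard_cons_le (a : Bool) (w : List Bool) :
    (palFactors (a :: w)).ncard ≤ (palFactors w).ncard + 1 := by
  have hsub : palFactors w ⊆ palFactors (a :: w) := palFactors_mono (List.infix_cons (List.infix_refl w))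
  have := Set.ncard_sdiff_add_ncard_of_subset hsub (palFactors_finite _)
  have h2 := diff_ncard_le a w
  omega

theorem palFactors_nil : palFactors [] = {[]} := by
  ext u
  simp only [palFactors, Set.mem_ofPred_eq, List.infix_nil, Set.mem_singleton_iff]
  constructor
  · exact fun h => h.1
  · rintro rfl
    simp

theorem ncard_le (w : List Bool) : (palFactors w).ncard ≤ w.length + 1 := by
  induction w with
  | nil => rw [palFactors_nil]; simp
  | cons a w ih =>
    have := ncard_cons_le a w
    simp only [List.length_cons]
    omega

theorem isRich_nil : IsRich [] := by
  unfold IsRich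
  rw [palFactors_nil]
  simp

theorem isRich_of_cons {a : Bool} {w : List Bool} (h : IsRich (a :: w)) : IsRich w := by
  unfold IsRich at *
  have h1 := ncard_cons_le a w
  have h2 := ncard_le w
  simp only [List.length_cons] at h
  omega

theorem isRich_of_append_left : ∀ {s w : List Bool}, IsRich (s ++ w) → IsRich w
  | [], _, h => h
  | _ :: _, _, h => isRich_of_append_left (isRich_of_cons h)

theorem isRich_of_append_right {w t : List Bool} (h : IsRich (w ++ t)) : IsRich w := by
  rw [← isRich_reverse, List.reverse_append] at h
  have := isRich_of_append_left h
  rwa [isRich_reverse] at this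

/-- Factors of rich words are rich. -/
theorem IsRich.of_infix {u w : List Bool} (h : IsRich w) (hu : u <:+: w) : IsRich u := by
  obtain ⟨s, t, rfl⟩ := hu
  exact isRich_of_append_left (isRich_of_append_right h)

/-- If `a :: w` has a palindromic factor which is not a factor of the rich word `w`, it is rich. -/
theorem IsRich.cons {a : Bool} {w v : List Bool} (h : IsRich w) (hv : v.reverse = v)
    (h1 : v <:+: a :: w) (h2 : ¬ v <:+: w) : IsRich (a :: w) := by
  have hsub : insert v (palFactors w) ⊆ palFactors (a :: w) := by
    intro u hu
    rcases hu with rfl | hu
    · exact ⟨h1, hv⟩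
    · exact palFactors_mono (List.infix_cons (List.infix_refl w)) hu
  have hc := Set.ncard_le_ncard hsub (palFactors_finite _)
  have hins : (insert v (palFactors w)).ncard = (palFactors w).ncard + 1 :=
    Set.ncard_insert_of_notMem (fun hmem => h2 hmem.1) (palFactors_finite _)
  have hle := ncard_le (a :: w)
  unfold IsRich at *
  simp only [List.length_cons] at *
  omega

theorem replicate_append_singleton (n : ℕ) (a : Bool) :
    List.replicate (n + 1) a = List.replicate n a ++ [a] := List.replicate_succ'

/-- Adding copies of a letter in front of a rich word which starts with its longest run of this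
letter. -/
theorem left_tail {a : Bool} {t : List Bool} {m : ℕ} (h : IsRich t)
    (hpre : List.replicate m a <+: t) (hno : ¬ List.replicate (m + 1) a <:+: t) :
    ∀ k : ℕ, IsRich (List.replicate k a ++ t) ∧
      ¬ List.replicate (m + k + 1) a <:+: List.replicate k a ++ t := by
  intro k
  induction k with
  | zero => exact ⟨by simpa using h, by simpa using hno⟩
  | succ k ih =>
    have hpre' : List.replicate (m + k + 1) a <+: List.replicate (k + 1) a ++ t := by
      have : List.replicate (m + k + 1) a = List.replicate (k + 1) a ++ List.replicate m a := by
        rw [List.replicate_append_replicate]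
        congr 1
        omega
      rw [this]
      exact (List.prefix_append_right_inj _).2 hpre
    refine ⟨?_, ?_⟩
    · rw [List.replicate_succ, List.cons_append]
      refine ih.1.cons (v := List.replicate (m + k + 1) a) (by simp) ?_ ih.2
      have e : List.replicate (k + 1) a ++ t = a :: (List.replicate k a ++ t) := rfl
      rw [← e]
      exact hpre'.isInfix
    · intro hinf
      rw [List.replicate_succ (n := k), List.cons_append] at hinf
      rcases List.infix_cons_iff.1 hinf with h1 | h1
      · apply ih.2
        have e : List.replicate (m + (k + 1) + 1) a = a :: List.replicate (m + k + 1) a := by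
          rw [← List.replicate_succ]
          congr 1
        rw [e, List.cons_prefix_cons] at h1
        exact h1.2.isInfix
      · apply ih.2
        have e : List.replicate (m + (k + 1) + 1) a = a :: List.replicate (m + k + 1) a := by
          rw [← List.replicate_succ]
          congr 1
        rw [e] at h1
        exact (List.infix_cons (List.infix_refl _)).trans h1

theorem not_infix_replicate_append {a b : Bool} (hab : a ≠ b) {t : List Bool} {n : ℕ}
    (hno : ¬ List.replicate (n + 1) b <:+: t) :
    ∀ k : ℕ, ¬ List.replicate (n + 1) b <:+: List.replicate k a ++ t := by
  intro k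
  induction k with
  | zero => simpa using hno
  | succ k ih =>
    intro hinf
    rw [List.replicate_succ (n := k), List.cons_append] at hinf
    rcases List.infix_cons_iff.1 hinf with h1 | h1
    · rw [List.replicate_succ, List.cons_prefix_cons] at h1
      exact hab h1.1.symm
    · exact ih h1

/-- The word `t` may be prolonged by arbitrarily many letters `a` on the left and `b` on the
right. -/
theorem two_tails {a b : Bool} (hab : a ≠ b) {t : List Bool} {m n : ℕ} (h : IsRich t)
    (hpre : List.replicate m a <+: t) (hno : ¬ List.replicate (m + 1) a <:+: t)
    (hsuf : List.replicate n b <+: t.reverse)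
    (hno' : ¬ List.replicate (n + 1) b <:+: t.reverse) (k l : ℕ) :
    IsRich (List.replicate k a ++ t ++ List.replicate l b) := by
  have h1 := (left_tail h hpre hno k).1
  have h2 : ¬ List.replicate (n + 1) b <:+: List.replicate k a ++ t := by
    apply not_infix_replicate_append hab
    intro hc
    apply hno'
    have := List.reverse_infix.2 hc
    simpa using this
  have h3 : IsRich (List.replicate k a ++ t).reverse := isRich_reverse.2 h1
  have h4 : List.replicate n b <+: (List.replicate k a ++ t).reverse := by
    rw [List.reverse_append]
    exact hsuf.trans (List.prefix_append _ _)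
  have h5 : ¬ List.replicate (n + 1) b <:+: (List.replicate k a ++ t).reverse := by
    intro hc
    apply h2
    have := List.reverse_infix.2 hc
    simpa using this
  have h6 := (left_tail h3 h4 h5 l).1
  rw [← isRich_reverse] at h6
  simpa using h6

/-! ### The Boolean check -/

/-- prefix test -/
def preB : List Bool → List Bool → Bool
  | [], _ => true
  | _ :: _, [] => false
  | a :: u, b :: w => (a == b) && preB u w

theorem preB_iff : ∀ (u w : List Bool), preB u w = true ↔ u <+: w
  | [], w => by simp [preB]
  | a :: u, [] => by simp [preB]
  | a :: u, b :: w => by
    rw [preB, List.cons_prefix_cons, Bool.and_eq_true, preB_iff u w]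
    simp

/-- factor test -/
def infB (u : List Bool) : List Bool → Bool
  | [] => preB u []
  | (a :: w) => preB u (a :: w) || infB u w

theorem infB_iff (u : List Bool) : ∀ w : List Bool, infB u w = true ↔ u <:+: w
  | [] => by
    rw [infB, preB_iff]
    simp
  | (a :: w) => by
    rw [infB, Bool.or_eq_true, preB_iff, infB_iff u w, List.infix_cons_iff]

/-- search for a palindromic prefix of `v`, of length at most the last argument, which is not a
factor of `w` -/
def newPal (v w : List Bool) : ℕ → Option ℕ
  | 0 => none
  | (k+1) => match preB ((v.take (k+1)).reverse) v with
             | true => match infB (v.take (k+1)) w with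
                | true => none
                | false => some (k+1)
             | false => newPal v w k

theorem newPal_spec (v w : List Bool) : ∀ (k l : ℕ), newPal v w k = some l →
    ∃ u : List Bool, u <+: v ∧ u.reverse = u ∧ ¬ u <:+: w
  | 0, l, h => by simp [newPal] at h
  | (k+1), l, h => by
    rw [newPal] at h
    split at h
    · rename_i h1
      split at h
      · simp at h
      · rename_i h2
        refine ⟨v.take (k+1), List.take_prefix _ _, ?_, ?_⟩
        · rw [preB_iff] at h1
          have h3 : v.take (k+1) <+: v := List.take_prefix _ _
          have h4 := List.prefix_of_prefix_length_le h1 h3 (by simp)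
          exact h4.eq_of_length (by simp)
        · intro hc
          rw [← infB_iff] at hc
          rw [hc] at h2
          exact absurd h2 (by simp)
    · exact newPal_spec v w k l h

/-- richness test; returns the length of the longest palindromic prefix -/
def richL : List Bool → Option ℕ
  | [] => some 0
  | (a :: w) => match richL w with
     | none => none
     | some l => newPal (a :: w) w (l+2)

theorem richL_spec : ∀ (w : List Bool) (l : ℕ), richL w = some l → IsRich w
  | [], l, _ => isRich_nil
  | (a :: w), l, h => by
    rw [richL] at h
    split at h
    · simp at h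
    · rename_i l' h1
      obtain ⟨u, h2, h3, h4⟩ := newPal_spec _ _ _ _ h
      exact (richL_spec w l' h1).cons h3 h2.isInfix h4

/-- the word of length `n` with letters the first `n` binary digits of `c` -/
def toW (n c : ℕ) : List Bool := (List.range n).map (fun k => c.testBit k)

/-- length of the leading run of `a` -/
def lead (a : Bool) : List Bool → ℕ
  | [] => 0
  | (b :: w) => if a == b then lead a w + 1 else 0

/-- check for a code `c` of a word `v` of length 13, with parameters `k, l`: the word
`a^k v b^l` is rich and starts and ends with longest runs. -/
def chkT (a b : Bool) (t : List Bool) : Bool :=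
  (richL t).isSome &&
  (preB (List.replicate (lead a t) a) t && !(infB (List.replicate (lead a t + 1) a) t)) &&
  (preB (List.replicate (lead b t.reverse) b) t.reverse &&
    !(infB (List.replicate (lead b t.reverse + 1) b) t.reverse))

/-- the check for the triple `(c, k, l)` -/
def chk (c : ℕ × ℕ × ℕ) : Bool :=
  (c.1.testBit 0 != c.1.testBit 12) &&
  chkT (c.1.testBit 0) (c.1.testBit 12)
    (List.replicate c.2.1 (c.1.testBit 0) ++ toW 13 c.1 ++ List.replicate c.2.2 (c.1.testBit 12))

/-- A function on the positions `0, …, 12` all of whose constant prolongations are rich. -/
def Good (f : ℕ → Bool) : Prop := ∀ k l : ℕ,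
  IsRich (List.replicate k (f 0) ++ (List.range 13).map f ++ List.replicate l (f 12))

theorem Good.congr {f g : ℕ → Bool} (hf : Good f) (h : ∀ k < 13, g k = f k) : Good g := by
  intro k l
  have e : (List.range 13).map g = (List.range 13).map f := by
    apply List.map_congr_left
    intro x hx
    exact h x (List.mem_range.1 hx)
  rw [e, h 0 (by norm_num), h 12 (by norm_num)]
  exact hf k l

theorem good_of_chk {c k1 k2 : ℕ} (h : chk (c, k1, k2) = true) : Good c.testBit := by
  unfold chk chkT at h
  simp only [Bool.and_eq_true, bne_iff_ne, ne_eq, Bool.not_eq_true'] at h
  obtain ⟨hab, ⟨h1, h2, h3⟩, h4, h5⟩ := h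
  obtain ⟨l0, hl0⟩ := Option.isSome_iff_exists.1 h1
  have hr := richL_spec _ _ hl0
  rw [preB_iff] at h2 h4
  have h3' : ¬ List.replicate (lead (c.testBit 0) (List.replicate k1 (c.testBit 0) ++ toW 13 c ++
      List.replicate k2 (c.testBit 12)) + 1) (c.testBit 0) <:+:
      (List.replicate k1 (c.testBit 0) ++ toW 13 c ++ List.replicate k2 (c.testBit 12)) := by
    intro hc
    rw [← infB_iff] at hc
    rw [hc] at h3
    exact absurd h3 (by simp)
  have h5' : ¬ List.replicate (lead (c.testBit 12) (List.replicate k1 (c.testBit 0) ++ toW 13 c ++
      List.replicate k2 (c.testBit 12)).reverse + 1) (c.testBit 12) <:+: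
      (List.replicate k1 (c.testBit 0) ++ toW 13 c ++ List.replicate k2 (c.testBit 12)).reverse := by
    intro hc
    rw [← infB_iff] at hc
    rw [hc] at h5
    exact absurd h5 (by simp)
  intro k l
  have hbig := two_tails hab hr h2 h3' h4 h5' k l
  apply hbig.of_infix
  refine ⟨List.replicate k1 (c.testBit 0), List.replicate k2 (c.testBit 12), ?_⟩
  have e1 : List.replicate k1 (c.testBit 0) ++ List.replicate k (c.testBit 0) =
      List.replicate k (c.testBit 0) ++ List.replicate k1 (c.testBit 0) := by
    rw [List.replicate_append_replicate, List.replicate_append_replicate, Nat.add_comm]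
  have e2 : List.replicate l (c.testBit 12) ++ List.replicate k2 (c.testBit 12) =
      List.replicate k2 (c.testBit 12) ++ List.replicate l (c.testBit 12) := by
    rw [List.replicate_append_replicate, List.replicate_append_replicate, Nat.add_comm]
  simp only [toW]
  calc List.replicate k1 (c.testBit 0) ++ (List.replicate k (c.testBit 0) ++
        List.map c.testBit (List.range 13) ++ List.replicate l (c.testBit 12)) ++
        List.replicate k2 (c.testBit 12)
      = (List.replicate k1 (c.testBit 0) ++ List.replicate k (c.testBit 0)) ++
        List.map c.testBit (List.range 13) ++ (List.replicate l (c.testBit 12) ++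
        List.replicate k2 (c.testBit 12)) := by simp only [List.append_assoc]
    _ = _ := by rw [e1, e2]; simp only [List.append_assoc]

end Pool.R73.Rich
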